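import Mathlib

/-!
# A strongly connected two-player preference graph without 4-cycles
-/

namespace Pool.Agent.Results.MP_69f1cd_co.NoMatchingPennies

/-- The arcs of the preference graph of the two-player game with payoff functions `u₁`, `u₂`:
there is an arc `p → q` if the profiles `p`, `q` differ exactly in the strategy of player 1 and
player 1 strictly prefers `q`, or differ exactly in the strategy of player 2 and player 2
strictly prefers `q`. -/
def Arc {S T : Type*} (u₁ u₂ : S → T → ℝ) (p q : S × T) : Prop :=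
  (p.1 ≠ q.1 ∧ p.2 = q.2 ∧ u₁ p.1 p.2 < u₁ q.1 q.2) ∨
    (p.1 = q.1 ∧ p.2 ≠ q.2 ∧ u₂ p.1 p.2 < u₂ q.1 q.2)

/-- A strict game: a player is never indifferent between two distinct strategies of his own. -/
def Strict {S T : Type*} (u₁ u₂ : S → T → ℝ) : Prop :=
  (∀ s s' t, s ≠ s' → u₁ s t ≠ u₁ s' t) ∧ ∀ s t t', t ≠ t' → u₂ s t ≠ u₂ s t'

/-- Payoffs of player 1 (rows: strategies of player 1, columns: strategies of player 2). -/
def w₁ : Fin 4 → Fin 5 → ℕ :=
  ![![0, 1, 3, 3, 2],
    ![1, 2, 1, 0, 3],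
    ![2, 3, 2, 1, 0],
    ![3, 0, 0, 2, 1]]

/-- Payoffs of player 2 (rows: strategies of player 1, columns: strategies of player 2). -/
def w₂ : Fin 4 → Fin 5 → ℕ :=
  ![![2, 0, 1, 3, 4],
    ![1, 4, 0, 2, 3],
    ![4, 2, 3, 0, 1],
    ![3, 1, 2, 4, 0]]

/-- The arcs of the preference graph, with natural number payoffs. -/
def ArcN (p q : Fin 4 × Fin 5) : Prop :=
  (p.1 ≠ q.1 ∧ p.2 = q.2 ∧ w₁ p.1 p.2 < w₁ q.1 q.2) ∨
    (p.1 = q.1 ∧ p.2 ≠ q.2 ∧ w₂ p.1 p.2 < w₂ q.1 q.2)

instance : DecidableRel ArcN := fun p q => by unfold ArcN; infer_instance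

lemma arc_iff (p q : Fin 4 × Fin 5) :
    Arc (fun s t => (w₁ s t : ℝ)) (fun s t => (w₂ s t : ℝ)) p q ↔ ArcN p q := by
  simp only [Arc, ArcN, Nat.cast_lt]

lemma no_cycle : ∀ a b, ArcN a b → ∀ c, ArcN b c → ∀ d, ArcN c d → ¬ ArcN d a := by
  decide +kernel

lemma strict₁ : ∀ s s' t, s ≠ s' → w₁ s t ≠ w₁ s' t := by decide +kernel

lemma strict₂ : ∀ s t t', t ≠ t' → w₂ s t ≠ w₂ s t' := by decide +kernel

/-- A closed directed walk through all profiles. -/
def walk : List (Fin 4 × Fin 5) :=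
  [(0, 0), (0, 4), (1, 4), (1, 1), (2, 1), (2, 2), (0, 2), (0, 3), (0, 4), (1, 4), (1, 1),
    (2, 1), (2, 0), (3, 0), (3, 3), (0, 3), (0, 4), (1, 4), (1, 1), (2, 1), (2, 2), (0, 2),
    (0, 0), (1, 0), (1, 3), (2, 3), (2, 4), (3, 4), (3, 1), (0, 1), (0, 0), (1, 0), (1, 3),
    (2, 3), (2, 4), (3, 4), (3, 2), (1, 2), (0, 2), (0, 0)]

lemma walk_chain : walk.IsChain ArcN := by decide +kernel

lemma walk_all : ∀ p : Fin 4 × Fin 5, p ∈ walk := by decide +kernel

lemma from_head {β : Type*} {R : β → β → Prop} : ∀ (L : List β) (x : β), (x :: L).IsChain R →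
    ∀ y ∈ x :: L, Relation.ReflTransGen R x y
  | [], x, _, y, hy => by
      rw [List.mem_singleton.1 hy]
  | z :: L, x, h, y, hy => by
      rw [List.isChain_cons_cons] at h
      rcases List.mem_cons.1 hy with rfl | hy
      · exact Relation.ReflTransGen.refl
      · exact (Relation.ReflTransGen.single h.1).trans (from_head L z h.2 y hy)

lemma to_last {β : Type*} {R : β → β → Prop} : ∀ (L : List β) (z : β), (L ++ [z]).IsChain R →
    ∀ y ∈ L ++ [z], Relation.ReflTransGen R y z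
  | [], z, _, y, hy => by
      rw [List.mem_singleton.1 hy]
  | x :: L, z, h, y, hy => by
      have hz : z ∈ L ++ [z] := by simp
      rcases List.mem_cons.1 hy with rfl | hy
      · exact from_head (L ++ [z]) y h z (List.mem_cons_of_mem _ hz)
      · exact to_last L z (List.IsChain.tail h) y hy

lemma reach (p q : Fin 4 × Fin 5) : Relation.ReflTransGen ArcN p q := by
  have h1 : Relation.ReflTransGen ArcN p (0, 0) :=
    to_last (walk.dropLast) (0, 0) walk_chain p (walk_all p)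
  have h2 : Relation.ReflTransGen ArcN (0, 0) q :=
    from_head (walk.tail) (0, 0) walk_chain q (walk_all q)
  exact h1.trans h2

/-- **Main theorem.** There is a finite two-player game (even a strict one, with 4 and 5
strategies) whose preference graph is strongly connected but contains no directed 4-cycle. -/
theorem result :
    ∃ u₁ u₂ : Fin 4 → Fin 5 → ℝ, Strict u₁ u₂ ∧
      (∀ p q : Fin 4 × Fin 5, Relation.ReflTransGen (Arc u₁ u₂) p q) ∧
      ¬ ∃ a b c d : Fin 4 × Fin 5, [a, b, c, d].Nodup ∧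
        Arc u₁ u₂ a b ∧ Arc u₁ u₂ b c ∧ Arc u₁ u₂ c d ∧ Arc u₁ u₂ d a := by
  refine ⟨fun s t => (w₁ s t : ℝ), fun s t => (w₂ s t : ℝ), ⟨?_, ?_⟩, ?_, ?_⟩
  · intro s s' t h h'
    exact strict₁ s s' t h (Nat.cast_injective (R := ℝ) h')
  · intro s t t' h h'
    exact strict₂ s t t' h (Nat.cast_injective (R := ℝ) h')
  · intro p q
    exact Relation.ReflTransGen.mono (fun a b h => (arc_iff a b).2 h) p q (reach p q)
  · rintro ⟨a, b, c, d, -, h1, h2, h3, h4⟩
    rw [arc_iff] at h1 h2 h3 h4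
    exact no_cycle a b h1 c h2 d h3 h4

end Pool.Agent.Results.MP_69f1cd_co.NoMatchingPennies
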